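import Pool.Agent.Lib.MP_8f49b0_lc.MM.S.Sp

/-! # Reflection into closed sets (module S-SK)

`exists_sk`: choose for every `x` with `∃ y, R x y` such a `y` and a finite set `A x` with `Sp.In K (A x) y` (`hR`, `Sp.fin`), and let
`F l = ⋃ {A x : Sp.In K {ξ | ξ ∈ l} x}`; this is countable by `Sp.ctb`. If `Sp.In K N x` then (`Sp.fin`) there is a list `l` of elements of `N` such that
`Sp.In K {ξ | ξ ∈ l} x`. -/

namespace Pool.Agent.Lib.MP_8f49b0_lc.MM

/-- countable-valued functions -/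
def Fn (F : List O → Set O) : Prop := ∀ l, (F l).Countable

private lemma sk_list (K : Code) {X : Type*} [Sp K X] {N : Set O} {x : X} (hx : Sp.In K N x) :
    ∃ l : List O, (∀ ξ ∈ l, ξ ∈ N) ∧ Sp.In K {ξ | ξ ∈ l} x := by
  classical
  obtain ⟨B, h1, h2, h3⟩ := Sp.fin hx
  refine ⟨h1.toFinset.toList, fun ξ hξ => ?_, Sp.mono (fun ξ hξ => ?_) h3⟩
  · rw [Finset.mem_toList, Set.Finite.mem_toFinset] at hξ
    exact h2 hξ
  · show ξ ∈ h1.toFinset.toList
    rw [Finset.mem_toList, Set.Finite.mem_toFinset]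
    exact hξ

private lemma sk_ctb (l : List O) : ({ξ | ξ ∈ l} : Set O).Countable :=
  (List.finite_toSet l).countable

theorem exists_sk (K : Code) {X Y : Type*} [Sp K X] [Sp K Y] (R : X → Y → Prop)
    (hR : ∀ x y, R x y → ∃ A : Set O, Sp.In K A y) :
    ∃ F : List O → Set O, Fn F ∧ ∀ N : Set O, Cl F N → ∀ x, Sp.In K N x → (∃ y, R x y) →
      ∃ y, Sp.In K N y ∧ R x y := by
  classical
  have h : ∀ x, ∃ A : Set O, A.Finite ∧ ((∃ y, R x y) → ∃ y, Sp.In K A y ∧ R x y) := by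
    intro x
    by_cases hx : ∃ y, R x y
    · obtain ⟨y, hy⟩ := hx
      obtain ⟨A, hA⟩ := hR x y hy
      obtain ⟨B, h1, -, h3⟩ := Sp.fin hA
      exact ⟨B, h1, fun _ => ⟨y, h3, hy⟩⟩
    · exact ⟨∅, Set.finite_empty, fun h => absurd h hx⟩
  choose A hA1 hA2 using h
  refine ⟨fun l => ⋃ x ∈ {x : X | Sp.In K {ξ | ξ ∈ l} x}, A x, fun l => ?_, fun N hN x hx hxy => ?_⟩
  · exact (Sp.ctb (K := K) (sk_ctb l)).biUnion fun x _ => (hA1 x).countable
  · obtain ⟨l, hl, hlx⟩ := sk_list K hx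
    obtain ⟨y, hy1, hy2⟩ := hA2 x hxy
    refine ⟨y, Sp.mono (fun ξ hξ => hN l hl ?_) hy1, hy2⟩
    exact Set.mem_biUnion (show x ∈ {x : X | Sp.In K {ξ | ξ ∈ l} x} from hlx) hξ

/-- finitely or countably many functions can be merged -/
theorem exists_merge {ι : Type*} [Countable ι] (F : ι → List O → Set O) (hF : ∀ i, Fn (F i)) :
    ∃ F' : List O → Set O, Fn F' ∧ ∀ N, Cl F' N → ∀ i, Cl (F i) N := by
  refine ⟨fun l => ⋃ i, F i l, fun l => Set.countable_iUnion fun i => hF i l,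
    fun N hN i l hl => ?_⟩
  exact (Set.subset_iUnion (fun i => F i l) i).trans (hN l hl)

theorem exists_merge2 (F G : List O → Set O) (hF : Fn F) (hG : Fn G) :
    ∃ F' : List O → Set O, Fn F' ∧ ∀ N, Cl F' N → Cl F N ∧ Cl G N := by
  refine ⟨fun l => F l ∪ G l, fun l => (hF l).union (hG l), fun N hN =>
    ⟨fun l hl => Set.subset_union_left.trans (hN l hl),
      fun l hl => Set.subset_union_right.trans (hN l hl)⟩⟩

/-- more and more functions: the functions `G x` for the `x` in `N` -/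
theorem exists_merge_in (K : Code) {X : Type*} [Sp K X] (G : X → List O → Set O) (hG : ∀ x, Fn (G x)) :
    ∃ F' : List O → Set O, Fn F' ∧ ∀ N, Cl F' N → ∀ x, Sp.In K N x → Cl (G x) N := by
  refine ⟨fun l => ⋃ x ∈ {x : X | Sp.In K {ξ | ξ ∈ l} x},
    ⋃ l' ∈ {l' : List O | Sp.In K {ξ | ξ ∈ l} l'}, G x l', fun l => ?_,
    fun N hN x hx l' hl' => ?_⟩
  · refine (Sp.ctb (K := K) (sk_ctb l)).biUnion fun x _ => ?_
    exact (Sp.ctb (K := K) (sk_ctb l)).biUnion fun l' _ => hG x l'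
  · obtain ⟨l, hl, hlx⟩ := sk_list K hx
    have h1 : ∀ ξ ∈ l ++ l', ξ ∈ N := by
      intro ξ hξ
      rcases List.mem_append.1 hξ with h | h
      · exact hl ξ h
      · exact hl' ξ h
    refine Set.Subset.trans ?_ (hN (l ++ l') h1)
    intro ξ hξ
    have h2 : x ∈ {x : X | Sp.In K {ξ | ξ ∈ l ++ l'} x} :=
      Sp.mono (fun η hη => List.mem_append.2 (Or.inl hη)) hlx
    have h3 : l' ∈ {l'' : List O | Sp.In K {ξ | ξ ∈ l ++ l'} l''} :=
      fun η hη => List.mem_append.2 (Or.inr hη)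
    exact Set.mem_biUnion h2 (Set.mem_biUnion h3 hξ)

/-- constants -/
theorem exists_const (A : Set O) (hA : A.Countable) :
    ∃ F : List O → Set O, Fn F ∧ ∀ N, Cl F N → A ⊆ N :=
  ⟨fun _ => A, fun _ => hA, fun N hN => hN [] (by simp)⟩

end Pool.Agent.Lib.MP_8f49b0_lc.MM
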