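import Pool.Agent.Lib.MP_8f49b0_lc.MM.S.Small
import Pool.Agent.Lib.MP_8f49b0_lc.MM.S.Sk
import Pool.Agent.Lib.MP_8f49b0_lc.MM.I.Defs

/-! # Heights of transitive nodes (module S-TR)

`α` is the supremum of a strictly increasing sequence of length `ω₁` with `a (ξ + 1)` bigger than `a ξ`, all `f β`, `bd β`, `io β` for
`β < a ξ` (`exists_bound`), all `cn N` for countable `N ⊆ Set.Iio (a ξ)` (`small_countable`). A countable subset of `Set.Iio α` is a subset of some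
`Set.Iio (a ξ)`, because `ω₁` is regular (`Ordinal` or `Cardinal.isRegular_aleph_one`).
`exists_bdd`: apply `exists_tr` to `f β = ` a strict bound of all elements of the countable sets `F l` for the lists `l` of ordinals `≤ β`
(a small set, `small_lists`). -/

namespace Pool.Agent.Lib.MP_8f49b0_lc.MM

namespace Code

variable (K : Code)

private theorem TrEx_step (f : O → O) (a : O) : ∃ δ, a < δ ∧ (∀ β < a, f β < δ ∧ K.bd β < δ ∧ K.io β < δ) ∧
    ∀ N : Set O, N.Countable → N ⊆ Set.Iio a → K.cn N < δ := by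
  have h0 : Small.{0} {β : O // β < a} := Ordinal.small_Iio a
  have h0' := small_countable a
  obtain ⟨δ1, h1⟩ := exists_bound (fun x : {β : O // β < a} => f x.1)
  obtain ⟨δ2, h2⟩ := exists_bound (fun x : {β : O // β < a} => K.bd x.1)
  obtain ⟨δ3, h3⟩ := exists_bound (fun x : {β : O // β < a} => K.io x.1)
  obtain ⟨δ4, h4⟩ := exists_bound (fun x : {N : Set O // N.Countable ∧ N ⊆ Set.Iio a} => K.cn x.1)
  refine ⟨max (max (max δ1 δ2) (max δ3 δ4)) (Order.succ a), ?_, fun β hβ => ⟨?_, ?_, ?_⟩, fun N hN hNa => ?_⟩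
  · exact (Order.lt_succ a).trans_le (le_max_right _ _)
  · exact (h1 ⟨β, hβ⟩).trans_le (((le_max_left _ _).trans (le_max_left _ _)).trans (le_max_left _ _))
  · exact (h2 ⟨β, hβ⟩).trans_le (((le_max_right _ _).trans (le_max_left _ _)).trans (le_max_left _ _))
  · exact (h3 ⟨β, hβ⟩).trans_le (((le_max_left _ _).trans (le_max_right _ _)).trans (le_max_left _ _))
  · exact (h4 ⟨N, hN, hNa⟩).trans_le (((le_max_right _ _).trans (le_max_right _ _)).trans (le_max_left _ _))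

private theorem TrEx_seq (G : O → O) (b : O) : ∃ A : O → O, (∀ ξ, b ≤ A ξ) ∧ ∀ ξ, ∀ η < ξ, G (A η) ≤ A ξ := by
  have key : ∀ (ξ : O) (A' : ∀ η < ξ, O), ∃ a, b ≤ a ∧ ∀ η (h : η < ξ), G (A' η h) ≤ a := by
    intro ξ A'
    have h0 : Small.{0} {η : O // η < ξ} := Ordinal.small_Iio ξ
    obtain ⟨δ, h1⟩ := exists_bound (fun x : {η : O // η < ξ} => G (A' x.1 x.2))
    exact ⟨max b δ, le_max_left _ _, fun η h => (h1 ⟨η, h⟩).le.trans (le_max_right _ _)⟩
  choose next h1 h2 using key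
  refine ⟨WellFounded.fix (C := fun _ => O) Ordinal.lt_wf next, fun ξ => ?_, fun ξ η h => ?_⟩
  · rw [WellFounded.fix_eq]
    exact h1 _ _
  · rw [WellFounded.fix_eq (C := fun _ => O) Ordinal.lt_wf next ξ]
    exact h2 ξ (fun y _ => WellFounded.fix (C := fun _ => O) Ordinal.lt_wf next y) η h

theorem exists_tr (f : O → O) (γ : O) : ∃ α, γ < α ∧ K.Tr α ∧ ∀ β < α, f β < α := by
  choose G hG1 hG2 hG3 using TrEx_step K f
  set b : O := Order.succ (max γ (max w1 K.xb)) with hb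
  obtain ⟨A, hA1, hA2⟩ := TrEx_seq G b
  have hsm : Small.{0} (Set.Iio w1 : Set O) := Ordinal.small_Iio w1
  have hsm2 : Small.{0} (A '' Set.Iio w1) := small_image _ _
  have hbdd : BddAbove (A '' Set.Iio w1) := Ordinal.bddAbove_of_small
  set α : O := sSup (A '' Set.Iio w1) with hα
  have hle : ∀ ξ < w1, A ξ ≤ α := fun ξ hξ => le_csSup hbdd ⟨ξ, hξ, rfl⟩
  have hsucc : ∀ ξ < w1, Order.succ ξ < w1 := fun ξ hξ => (Cardinal.isSuccLimit_omega 1).succ_lt hξ
  have hGA : ∀ ξ < w1, G (A ξ) ≤ α := fun ξ hξ =>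
    (hA2 (Order.succ ξ) ξ (Order.lt_succ ξ)).trans (hle _ (hsucc ξ hξ))
  have h0 : (0 : O) < w1 := Ordinal.omega_pos 1
  have hex : ∀ β < α, ∃ ξ < w1, β < A ξ := by
    intro β hβ
    have hne : (A '' Set.Iio w1).Nonempty := ⟨A 0, 0, h0, rfl⟩
    obtain ⟨_, ⟨ξ, hξ, rfl⟩, h1⟩ := exists_lt_of_lt_csSup hne hβ
    exact ⟨ξ, hξ, h1⟩
  have hmono : ∀ ξ η : O, ξ ≤ η → A ξ ≤ A η := by
    intro ξ η h
    rcases h.eq_or_lt with rfl | h
    · exact le_rfl
    · exact (hG1 (A ξ)).le.trans (hA2 η ξ h)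
  have hbα : max γ (max w1 K.xb) < α :=
    (Order.lt_succ _).trans_le ((hA1 0).trans (hle 0 h0))
  refine ⟨α, (le_max_left _ _).trans_lt hbα, ⟨?_, ?_, ?_, ?_, ?_⟩, ?_⟩
  · exact ((le_max_left _ _).trans (le_max_right _ _)).trans_lt hbα
  · exact ((le_max_right _ _).trans (le_max_right _ _)).trans_lt hbα
  · intro N hN hNα
    have h1 : ∀ x : N, ∃ ξ < w1, x.1 < A ξ := fun x => hex x.1 (hNα x.2)
    choose φ h2 h3 using h1
    have hcN : Countable N := hN.to_subtype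
    have h4 : (⨆ x : N, φ x) < w1 := Ordinal.iSup_lt_omega_one h2
    have h5 : Small.{0} (Set.range φ) := by
      have : Countable (Set.range φ) := (Set.countable_range φ).to_subtype
      exact Countable.toSmall _
    have h6 : N ⊆ Set.Iio (A (⨆ x : N, φ x)) := by
      intro ξ hξ
      have h7 : φ ⟨ξ, hξ⟩ ≤ ⨆ x : N, φ x := le_ciSup (Ordinal.bddAbove_of_small (s := Set.range φ)) ⟨ξ, hξ⟩
      exact (h3 ⟨ξ, hξ⟩).trans_le (hmono _ _ h7)
    exact (hG3 _ N hN h6).trans_le (hGA _ h4)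
  · intro x hx
    obtain ⟨ξ, hξ, h1⟩ := hex x hx
    exact (hG2 _ x h1).2.1.le.trans (hGA ξ hξ)
  · intro x hx
    obtain ⟨ξ, hξ, h1⟩ := hex x hx
    exact (hG2 _ x h1).2.2.le.trans (hGA ξ hξ)
  · intro x hx
    obtain ⟨ξ, hξ, h1⟩ := hex x hx
    exact (hG2 _ x h1).1.trans_le (hGA ξ hξ)

theorem exists_bdd (F : List O → Set O) (hF : Fn F) (γ : O) :
    ∃ β, γ < β ∧ K.Tr β ∧ ∀ l : List O, (∀ ξ ∈ l, ξ < β) → F l ⊆ Set.Iio β := by
  have h1 : ∀ l : List O, ∃ δ, ∀ x : F l, x.1 < δ := by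
    intro l
    have : Countable (F l) := (hF l).to_subtype
    have : Small.{0} (F l) := Countable.toSmall _
    exact exists_bound (fun x : F l => x.1)
  choose φ hφ using h1
  have h2 : ∀ β : O, ∃ δ, ∀ x : {l : List O // ∀ ξ ∈ l, ξ < Order.succ β}, φ x.1 < δ := by
    intro β
    have := small_lists (Order.succ β)
    exact exists_bound (fun x : {l : List O // ∀ ξ ∈ l, ξ < Order.succ β} => φ x.1)
  choose f hf using h2
  obtain ⟨α, h3, h4, h5⟩ := K.exists_tr f γ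
  refine ⟨α, h3, h4, fun l hl ξ hξ => ?_⟩
  -- a bound of the list below `α`
  have h6 : ∃ β < α, ∀ ξ ∈ l, ξ ≤ β := by
    clear hξ
    induction l with
    | nil => exact ⟨0, h4.w1.trans_le' zero_le, fun ξ hξ => absurd hξ List.not_mem_nil⟩
    | cons a l ih =>
      obtain ⟨β, hβ, h7⟩ := ih (fun ξ hξ => hl ξ (List.mem_cons_of_mem a hξ))
      refine ⟨max a β, max_lt (hl a List.mem_cons_self) hβ, fun ξ hξ => ?_⟩
      rcases List.mem_cons.1 hξ with rfl | h8
      · exact le_max_left _ _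
      · exact (h7 ξ h8).trans (le_max_right _ _)
  obtain ⟨β, hβ, h7⟩ := h6
  have h8 : φ l < f β := hf β ⟨l, fun ξ hξ => Order.lt_succ_of_le (h7 ξ hξ)⟩
  exact ((hφ l ⟨ξ, hξ⟩).trans h8).trans (h5 β hβ)

end Code

end Pool.Agent.Lib.MP_8f49b0_lc.MM
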