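import Pool.Agent.Lib.MP_8f49b0_lc.MM.S.Small

/-! # Enumerations of the sets of pairs at a level (module S-ENEX)

For every `α` the type `Set {d : Pre × O // Below α d.1 ∧ d.2 < w1}` is small (`small_pairs`), hence there is a surjection of `Set.Iio (io α)` onto it for some ordinal `io α`
(e.g. `Ordinal` of a well-order on `Shrink _`, `Cardinal.ord`). -/

namespace Pool.Agent.Lib.MP_8f49b0_lc.MM

private theorem enEx_surj (S : Type*) [Small.{0} S] [Nonempty S] :
    ∃ (o : O) (g : O → S), ∀ s, ∃ y < o, g y = s := by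
  classical
  let r : Shrink.{0} S → Shrink.{0} S → Prop := WellOrderingRel
  refine ⟨Ordinal.type r, fun y => if h : y ∈ Set.Iio (Ordinal.type r) then
    (equivShrink S).symm (Ordinal.enum r ⟨y, h⟩) else Classical.arbitrary S, fun s => ?_⟩
  have hlt : Ordinal.typein r (equivShrink S s) < Ordinal.type r := Ordinal.typein_lt_type r _
  refine ⟨Ordinal.typein r (equivShrink S s), hlt, ?_⟩
  show (if h : _ ∈ Set.Iio (Ordinal.type r) then _ else _) = s
  rw [dif_pos (show Ordinal.typein r (equivShrink S s) ∈ Set.Iio (Ordinal.type r) from hlt)]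
  rw [Ordinal.enum_typein, Equiv.symm_apply_apply]

theorem exists_en : ∃ (en : O → O → Set (Pre × O)) (io : O → O),
    (∀ α, ∀ D : Set (Pre × O), (∀ d ∈ D, Below α d.1 ∧ d.2 < w1) → ∃ y < io α, en α y = D) ∧
      ∀ α y, io α ≤ y → en α y = ∅ := by
  classical
  have h : ∀ α : O, ∃ (o : O) (g : O → Set {d : Pre × O // Below α d.1 ∧ d.2 < w1}),
      ∀ s, ∃ y < o, g y = s := by
    intro α
    have := small_pairs α
    exact enEx_surj _
  choose io g hg using h
  refine ⟨fun α y => if y < io α then Subtype.val '' (g α y) else ∅, io, ?_, ?_⟩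
  · intro α D hD
    obtain ⟨y, hy, hgy⟩ := hg α (Subtype.val ⁻¹' D)
    refine ⟨y, hy, ?_⟩
    show (if y < io α then (Subtype.val '' (g α y) : Set (Pre × O)) else ∅) = D
    rw [if_pos hy, hgy]
    exact Set.image_preimage_eq_of_subset fun d hd => ⟨⟨d, hD d hd⟩, rfl⟩
  · intro α y hy
    show (if y < io α then (Subtype.val '' (g α y) : Set (Pre × O)) else ∅) = ∅
    rw [if_neg (not_lt.mpr hy)]

end Pool.Agent.Lib.MP_8f49b0_lc.MM
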