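import Pool.Agent.Lib.MP_8f49b0_lc.MM.S.Small

/-! # Codes of closure functions and relations (module S-FNLEX)

For every `β` the type `X β` of the pairs (`F` : lists below `β` to countable subsets of `Set.Iio β`, `R` : set of triples `(g, h', h)`, `Below β g`, `h', h < w1`) is small (`small_lists`, `small_countable`, `small_below`), so
there is an injection of `Σ β, X β` into `O` (inject every `Shrink (X β)` into `Set.Iio` of some ordinal and use an injection of `O × O` into `O`; or by cardinalities: `Cardinal.mk_sigma`, `#O × #O ≤ #O`, `Cardinal.mul_eq_self`).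
`fn`, `L`, `bd` are read off from the inverse of the injection (default: `∅`, `True`, `0`); `fn x l = F l` for lists below `β` and `∅` otherwise. -/

namespace Pool.Agent.Lib.MP_8f49b0_lc.MM

private abbrev S_FnLEx_X (β : O) : Type 1 :=
  ({l : List O // ∀ ξ ∈ l, ξ < β} → {N : Set O // N.Countable ∧ N ⊆ Set.Iio β}) ×
    Set ({g : Pre // Below β g} × Set.Iio w1 × Set.Iio w1)

private theorem S_FnLEx_small (β : O) : Small.{0} (S_FnLEx_X β) := by
  have := small_lists β
  have := small_countable β
  have := small_below β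
  infer_instance

private theorem S_FnLEx_inj {X : Type*} (hX : Small.{0} X) : ∃ f : X → O, Function.Injective f :=
  ⟨fun x => Ordinal.typein (WellOrderingRel (α := Shrink.{0} X)) (equivShrink X x),
    fun _ _ h => (equivShrink X).injective (Ordinal.typein_injective _ h)⟩

private theorem S_FnLEx_pair : ∃ f : O × O → O, Function.Injective f := by
  have h : Cardinal.mk (O × O) = Cardinal.mk O := by
    rw [Cardinal.mk_prod, Cardinal.lift_id, Cardinal.mul_eq_self (Cardinal.aleph0_le_mk O)]
  obtain ⟨e⟩ := Cardinal.eq.1 h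
  exact ⟨e, e.injective⟩

theorem exists_fnL : ∃ (fn : O → List O → Set O) (L : O → Pre → O → O → Prop) (bd : O → O),
    (∀ x l, (fn x l).Countable) ∧ (∀ x l, fn x l ⊆ Set.Iio (bd x)) ∧
    ∀ (β : O) (F : List O → Set O) (R : Pre → O → O → Prop), (∀ l, (F l).Countable) →
      (∀ l, F l ⊆ Set.Iio β) → ∃ x, (∀ l, (∀ ξ ∈ l, ξ < β) → fn x l = F l) ∧
        ∀ g h' h, Below β g → h' < w1 → h < w1 → (L x g h' h ↔ R g h' h) := by
  classical
  choose i hi using fun β => S_FnLEx_inj (S_FnLEx_small β)
  obtain ⟨p, hp⟩ := S_FnLEx_pair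
  let J : (Σ β : O, S_FnLEx_X β) → O := fun y => p (y.1, i y.1 y.2)
  have hJ : Function.Injective J := by
    rintro ⟨β, x⟩ ⟨β', x'⟩ h
    have h1 := hp h
    rw [Prod.mk.injEq] at h1
    obtain ⟨h2, h3⟩ := h1
    simp only at h2
    subst h2
    have h4 : x = x' := hi β h3
    rw [h4]
  have : Nonempty (Σ β : O, S_FnLEx_X β) :=
    ⟨⟨0, fun _ => ⟨∅, Set.countable_empty, Set.empty_subset _⟩, ∅⟩⟩
  have hinv := Function.leftInverse_invFun hJ
  refine ⟨fun x l => if h : ∀ ξ ∈ l, ξ < (Function.invFun J x).1 then ((Function.invFun J x).2.1 ⟨l, h⟩).1 else ∅,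
    fun x g h' h => ∃ (hg : Below (Function.invFun J x).1 g) (hh' : h' < w1) (hh : h < w1),
      ((⟨g, hg⟩, ⟨h', hh'⟩, ⟨h, hh⟩) : {g : Pre // Below (Function.invFun J x).1 g} × Set.Iio w1 × Set.Iio w1) ∈
        (Function.invFun J x).2.2,
    fun x => (Function.invFun J x).1, ?_, ?_, ?_⟩
  · intro x l
    dsimp only
    split_ifs with h
    · exact ((Function.invFun J x).2.1 ⟨l, h⟩).2.1
    · exact Set.countable_empty
  · intro x l
    dsimp only
    split_ifs with h
    · exact ((Function.invFun J x).2.1 ⟨l, h⟩).2.2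
    · exact Set.empty_subset _
  · intro β F R hF1 hF2
    let y : (Σ β : O, S_FnLEx_X β) :=
      ⟨β, fun l => ⟨F l.1, hF1 l.1, hF2 l.1⟩, {a | R a.1.1 a.2.1.1 a.2.2.1}⟩
    have hy : Function.invFun J (J y) = y := hinv y
    refine ⟨J y, ?_, ?_⟩
    · intro l hl
      dsimp only
      rw [hy]
      rw [dif_pos hl]
    · intro g h' h hg hh' hh
      dsimp only
      rw [hy]
      constructor
      · rintro ⟨_, _, _, h1⟩
        exact h1
      · intro h1
        exact ⟨hg, hh', hh, h1⟩

end Pool.Agent.Lib.MP_8f49b0_lc.MM
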