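import Pool.Agent.Lib.MP_8f49b0_lc.MM.S.CnEx
import Pool.Agent.Lib.MP_8f49b0_lc.MM.S.EnEx
import Pool.Agent.Lib.MP_8f49b0_lc.MM.S.FnLEx

/-! # Existence of the coding functions -/

namespace Pool.Agent.Lib.MP_8f49b0_lc.MM

theorem exists_code : Nonempty Code := by
  obtain ⟨cn, hcn1, hcn2⟩ := exists_cn
  obtain ⟨en, io, hen1, hen2⟩ := exists_en
  obtain ⟨fn, L, bd, h1, h2, h3⟩ := exists_fnL
  exact ⟨⟨fn, L, bd, cn, en, io, h1, h2, hcn1, hcn2, hen1, hen2, h3⟩⟩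

end Pool.Agent.Lib.MP_8f49b0_lc.MM
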