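import Pool.Agent.Lib.MP_8f49b0_lc.MM.I.Defs

/-! # Elementary properties of nodes (module S-NICE) -/

namespace Pool.Agent.Lib.MP_8f49b0_lc.MM

namespace Code

variable {K : Code}

theorem Tr.pos {α : O} (h : K.Tr α) : 0 < α :=
  lt_of_le_of_lt zero_le h.w1

private theorem S_Nice_nat_lt (n : ℕ) : (n : O) < w1 :=
  lt_of_lt_of_le (Ordinal.natCast_lt_omega0 n)
    (le_of_eq_of_le Ordinal.omega_zero.symm (Ordinal.omega_le_omega.2 zero_le_one))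

theorem Nice0.inter {N : Set O} (h : K.Nice0 N) {α : O} (hα : K.Tr α) : K.Nice0 (N ∩ Set.Iio α) := by
  have hM : ∀ M : Set O, M.Countable → K.cn M ∈ N ∩ Set.Iio α → M ⊆ Set.Iio α := fun M hM h1 ξ hξ =>
    lt_trans (K.cn_lt M hM ξ hξ) h1.2
  refine ⟨h.count.mono Set.inter_subset_left, ?_, ?_, ?_, ?_, ?_, ?_⟩
  · intro x hx l hl
    refine Set.subset_inter (h.fn x hx.1 l fun ξ hξ => (hl ξ hξ).1) ?_
    exact (K.fn_lt x l).trans (Set.Iio_subset_Iio (hα.bd x hx.2))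
  · intro n
    exact ⟨h.nat n, lt_trans (S_Nice_nat_lt n) hα.w1⟩
  · intro ξ hξ hξ1
    exact Set.subset_inter (h.seg ξ hξ.1 hξ1) (Set.Iio_subset_Iio (le_of_lt hξ.2))
  · intro M hMc hMN
    exact Set.subset_inter (h.mem M hMc hMN.1) (hM M hMc hMN)
  · intro M hMc hMN β hβ
    refine ⟨h.cap M hMc hMN.1 β hβ.1, ?_⟩
    exact hα.cn _ (hMc.mono Set.inter_subset_left) (Set.inter_subset_left.trans (hM M hMc hMN))
  · intro M hMc hMN δ hδ hd
    exact ⟨h.del M hMc hMN.1 δ hδ hd, lt_trans hδ hα.w1⟩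

/-- the traces of countable nodes on transitive nodes -/
theorem Nice.inter {N : Set O} (h : K.Nice N) {α : O} (hα : K.Tr α) : K.Nice (N ∩ Set.Iio α) :=
  ⟨h.toNice0.inter hα, h.xb, hα.xb⟩

/-- `N ∩ ω₁` is an ordinal -/
theorem Nice.exists_delta {N : Set O} (h : K.Nice N) : ∃ δ < w1, ∀ ξ < w1, ξ ∈ N ↔ ξ < δ := by
  have hne : {ξ : O | ξ < w1 ∧ ξ ∉ N}.Nonempty := by
    by_contra hcon
    have hsub : Set.Iio w1 ⊆ N := by
      intro ξ hξ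
      by_contra hξN
      exact hcon ⟨ξ, hξ, hξN⟩
    have hc : (Set.Iio w1).Countable := h.count.mono hsub
    have h1 := hc.le_aleph0
    rw [Cardinal.mk_Iio_ordinal] at h1
    simp at h1
  have hmem := csInf_mem hne
  set δ := sInf {ξ : O | ξ < w1 ∧ ξ ∉ N} with hδ
  refine ⟨δ, hmem.1, fun ξ hξ => ⟨fun hξN => ?_, fun hlt => ?_⟩⟩
  · by_contra hle
    rw [not_lt] at hle
    rcases hle.eq_or_lt with heq | hlt
    · exact hmem.2 (heq ▸ hξN)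
    · exact hmem.2 (h.seg ξ hξN hξ hlt)
  · by_contra hξN
    exact absurd (csInf_le' (show ξ ∈ {ξ : O | ξ < w1 ∧ ξ ∉ N} from ⟨hξ, hξN⟩)) (not_le.2 hlt)

theorem Nice.zero_mem {N : Set O} (h : K.Nice N) : (0 : O) ∈ N := by
  simpa using h.nat 0

theorem Nice.nonempty {N : Set O} (h : K.Nice N) : N.Nonempty := ⟨0, h.zero_mem⟩

/-- no node codes itself -/
theorem cn_not_mem {N : Set O} (h : N.Countable) : K.cn N ∉ N := fun h' => lt_irrefl _ (K.cn_lt N h _ h')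

theorem Nice.subset_of_mem {M N : Set O} (hN : K.Nice N) (hM : M.Countable) (h : K.cn M ∈ N) : M ⊆ N :=
  hN.mem M hM h

theorem PIn.mono {M N : Set O} {c : Pre} (h : K.PIn M c) (hMN : M ⊆ N) : K.PIn N c :=
  ⟨fun t ht => ⟨hMN (h.T t ht).1, hMN (h.T t ht).2.1, hMN (h.T t ht).2.2⟩,
    fun M' hM => ⟨(h.C M' hM).1, hMN (h.C M' hM).2⟩, fun v hv => hMN (h.u v hv)⟩

theorem PIn.res {N : Set O} {c : Pre} (h : K.PIn N c) (α : O) : K.PIn N (c.res α) := by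
  classical
  refine ⟨fun t ht => ?_, fun M hM => ?_, h.u⟩
  · simp only [Pre.res, Finset.mem_filter] at ht
    exact h.T t ht.1
  · simp only [Pre.res, Finset.mem_filter] at hM
    exact h.C M hM.1

/-- everything in `c` belongs to `N ∩ Set.Iio α` if it belongs to `N` and `c` is below `α` -/
theorem PIn.inter {N : Set O} {c : Pre} (h : K.PIn N c) {α : O} (hα : K.Tr α) (hc : Below α c) :
    K.PIn (N ∩ Set.Iio α) c :=
  ⟨fun t ht => ⟨⟨(h.T t ht).1, (hc.T t ht).1⟩, ⟨(h.T t ht).2.1, (hc.T t ht).2.1⟩,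
      ⟨(h.T t ht).2.2, lt_trans (hc.T t ht).2.2 hα.w1⟩⟩,
    fun M hM => ⟨(h.C M hM).1, (h.C M hM).2, hα.cn M (h.C M hM).1 (hc.C M hM).2⟩,
    fun v hv => ⟨h.u v hv, lt_trans (hc.u v hv) hα.w1⟩⟩

/-- a condition in a node below `α` is below `α` -/
theorem PIn.below {M : Set O} {c : Pre} (h : K.PIn M c) {α : O} (hα : K.Tr α) (hM : M ⊆ Set.Iio α)
    (hT : ∀ t ∈ c.T, t.2.2 < w1) (hu : ∀ v ∈ c.u, v.1 < w1) : Below α c :=
  have _ := hα
  ⟨fun t ht => ⟨hM (h.T t ht).1, hM (h.T t ht).2.1, hT t ht⟩,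
    fun N hN => ⟨(h.C N hN).1, fun ξ hξ => lt_trans (K.cn_lt N (h.C N hN).1 ξ hξ) (hM (h.C N hN).2)⟩, hu⟩

/-- the ordinals and codes which occur in a condition form a countable (finite) set -/
theorem exists_supp (K : Code) (c : Pre) (hc : ∀ N ∈ c.C, N.Countable) :
    ∃ A : Set O, A.Finite ∧ ∀ N, K.PIn N c ↔ A ⊆ N := by
  refine ⟨((fun t : O × O × O => t.1) '' (c.T : Set (O × O × O)) ∪
      (fun t : O × O × O => t.2.1) '' (c.T : Set (O × O × O)) ∪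
      (fun t : O × O × O => t.2.2) '' (c.T : Set (O × O × O))) ∪ (K.cn '' (c.C : Set (Set O)) ∪
      (fun v : O × ℕ × Bool => v.1) '' (c.u : Set (O × ℕ × Bool))), ?_, fun N => ⟨fun h => ?_, fun h => ?_⟩⟩
  · exact (((c.T.finite_toSet.image _).union (c.T.finite_toSet.image _)).union
      (c.T.finite_toSet.image _)).union ((c.C.finite_toSet.image _).union (c.u.finite_toSet.image _))
  · rintro ξ (((⟨t, ht, rfl⟩ | ⟨t, ht, rfl⟩) | ⟨t, ht, rfl⟩) | (⟨M, hM, rfl⟩ | ⟨v, hv, rfl⟩))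
    · exact (h.T t ht).1
    · exact (h.T t ht).2.1
    · exact (h.T t ht).2.2
    · exact (h.C M hM).2
    · exact h.u v hv
  · exact ⟨fun t ht => ⟨h (Or.inl (Or.inl (Or.inl ⟨t, ht, rfl⟩))), h (Or.inl (Or.inl (Or.inr ⟨t, ht, rfl⟩))),
        h (Or.inl (Or.inr ⟨t, ht, rfl⟩))⟩,
      fun M hM => ⟨hc M hM, h (Or.inr (Or.inl ⟨M, hM, rfl⟩))⟩,
      fun v hv => h (Or.inr (Or.inr ⟨v, hv, rfl⟩))⟩

/-- the ordinals `M ∩ ω₁` increase along the membership relation of nodes -/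
theorem Nice.lt_of_mem {M N : Set O} (hN : K.Nice N) (hM : K.Nice M) (h : K.cn M ∈ N) {δ ε : O} (hδ : δ < w1)
    (hε : ε < w1) (h1 : ∀ ξ < w1, ξ ∈ M ↔ ξ < δ) (h2 : ∀ ξ < w1, ξ ∈ N ↔ ξ < ε) : δ < ε := by
  have _ := hε
  refine (h2 δ hδ).1 (hN.del M hM.count h δ hδ ?_)
  ext ξ
  simp only [Set.mem_inter_iff, Set.mem_Iio]
  constructor
  · rintro ⟨h3, h4⟩
    exact (h1 ξ h4).1 h3
  · intro h3
    exact ⟨(h1 ξ (lt_trans h3 hδ)).2 h3, lt_trans h3 hδ⟩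

/-- codes of traces: if `cn M ∈ N` and `M ⊆ Set.Iio α`, then `cn M ∈ N ∩ Set.Iio α` -/
theorem cn_mem_inter {M N : Set O} (hM : M.Countable) (h : K.cn M ∈ N) {α : O} (hα : K.Tr α)
    (hMα : M ⊆ Set.Iio α) : K.cn M ∈ N ∩ Set.Iio α := ⟨h, hα.cn M hM hMα⟩

end Code

end Pool.Agent.Lib.MP_8f49b0_lc.MM
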