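import Pool.Agent.Lib.MP_8f49b0_lc.MM.S.TrEx
import Pool.Agent.Lib.MP_8f49b0_lc.MM.S.Nice

/-! # Coding a closure function and a relation (module S-CODECL)

Take `β` from `exists_bdd` for `F` above `γ`. Apply `K.code` with a bound above `β` (e.g. `β + 1`) to the function which is `F l ∪ {β}` for the lists `l`
of ordinals below `β` and `{β}` otherwise, and to `R`. -/

namespace Pool.Agent.Lib.MP_8f49b0_lc.MM

namespace Code

variable (K : Code)

theorem exists_code_cl (F : List O → Set O) (hF : Fn F) (γ : O) (R : Pre → O → O → Prop) :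
    ∃ x β, γ < β ∧ K.Tr β ∧
      (∀ g h' h, Below γ g → h' < w1 → h < w1 → (K.L x g h' h ↔ R g h' h)) ∧
      ∀ N, K.Nice0 N → x ∈ N → β ∈ N ∧ Cl F (N ∩ Set.Iio β) := by
  classical
  obtain ⟨β, hγ, hT, hβ⟩ := K.exists_bdd F hF γ
  have hlt : β < Order.succ β := Order.lt_succ β
  obtain ⟨x, h1, h2⟩ := K.code (Order.succ β) (fun l => if ∀ ξ ∈ l, ξ < β then F l ∪ {β} else {β}) R
    (by
      intro l
      by_cases h : ∀ ξ ∈ l, ξ < β
      · simp only [if_pos h]
        exact (hF l).union (Set.countable_singleton β)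
      · simp only [if_neg h]
        exact Set.countable_singleton β)
    (by
      intro l
      by_cases h : ∀ ξ ∈ l, ξ < β
      · simp only [if_pos h]
        rintro ξ (hξ | hξ)
        · exact (hβ l h hξ).trans hlt
        · rw [Set.mem_singleton_iff.1 hξ]
          exact hlt
      · simp only [if_neg h]
        intro ξ hξ
        rw [Set.mem_singleton_iff.1 hξ]
        exact hlt)
  refine ⟨x, β, hγ, hT, ?_, ?_⟩
  · intro g h' h hg hh' hh
    refine h2 g h' h ⟨?_, ?_, hg.u⟩ hh' hh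
    · intro t ht
      obtain ⟨a, b, c⟩ := hg.T t ht
      exact ⟨a.trans (hγ.trans hlt), b.trans (hγ.trans hlt), c⟩
    · intro N hN
      exact ⟨(hg.C N hN).1, fun ξ hξ => ((hg.C N hN).2 hξ).trans (hγ.trans hlt)⟩
  · intro N hN hx
    have hcl := hN.fn x hx
    have hβN : β ∈ N := by
      have h3 := hcl [] (by simp)
      rw [h1 [] (by simp)] at h3
      exact h3 (by simp)
    refine ⟨hβN, fun l hl => ?_⟩
    have hl' : ∀ ξ ∈ l, ξ < β := fun ξ hξ => (hl ξ hξ).2
    have h3 := hcl l (fun ξ hξ => (hl ξ hξ).1)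
    rw [h1 l (fun ξ hξ => (hl' ξ hξ).trans hlt), if_pos hl'] at h3
    exact fun ξ hξ => ⟨h3 (Or.inl hξ), hβ l hl' hξ⟩

end Code

end Pool.Agent.Lib.MP_8f49b0_lc.MM
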