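import Pool.Agent.Lib.MP_8f49b0_lc.MM.S.Sk
import Pool.Agent.Lib.MP_8f49b0_lc.MM.I.Defs

/-! # Closing off (module S-CLOSE)

`exists_closed`: iterate `A ↦ A ∪ ⋃_{l in A} G l` (countably many lists of elements of a countable set) and take the union.
`exists_nice0`: apply it to one function which collects `G l`, all `fn x l'` (`l = x :: l'`), the natural numbers, `Set.Iio ξ` for
`ξ < ω₁`, `M` for `x = cn M`, `{cn (M ∩ Set.Iio α)}` for `l = [cn M, α]`, `δ` for `l = [cn M]`, `M ∩ Set.Iio w1 = Set.Iio δ`. -/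

namespace Pool.Agent.Lib.MP_8f49b0_lc.MM

private theorem Close_lists {A : Set O} (hA : A.Countable) : {l : List O | ∀ ξ ∈ l, ξ ∈ A}.Countable := by
  have := hA.to_subtype
  rw [← Set.range_list_map_coe]
  exact Set.countable_range _

private theorem Close_Iio {ξ : O} (h : ξ < w1) : (Set.Iio ξ).Countable := by
  rw [← Cardinal.le_aleph0_iff_set_countable, Cardinal.mk_Iio_ordinal, ← Cardinal.lift_aleph0.{1, 0},
    Cardinal.lift_le, ← Cardinal.lt_aleph_one_iff, ← Cardinal.lt_ord, Cardinal.ord_aleph]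
  exact h

theorem exists_closed (G : List O → Set O) (hG : Fn G) (A : Set O) (hA : A.Countable) :
    ∃ N : Set O, N.Countable ∧ A ⊆ N ∧ Cl G N := by
  let s : Set O → Set O := fun B => B ∪ ⋃ l ∈ {l : List O | ∀ ξ ∈ l, ξ ∈ B}, G l
  let B : ℕ → Set O := fun n => s^[n] A
  have hB0 : B 0 = A := rfl
  have hBs : ∀ n, B (n + 1) = s (B n) := fun n => Function.iterate_succ_apply' s n A
  have hBc : ∀ n, (B n).Countable := by
    intro n
    induction n with
    | zero => exact hA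
    | succ n ih =>
      rw [hBs]
      exact ih.union ((Close_lists ih).biUnion fun l _ => hG l)
  have hmono : Monotone B := monotone_nat_of_le_succ fun n => by
    rw [hBs]
    exact Set.subset_union_left
  refine ⟨⋃ n, B n, Set.countable_iUnion hBc, hB0 ▸ Set.subset_iUnion B 0, ?_⟩
  intro l hl
  have h1 : ∃ n, ∀ ξ ∈ l, ξ ∈ B n := by
    induction l with
    | nil => exact ⟨0, by simp⟩
    | cons a l ih =>
      obtain ⟨n, hn⟩ := ih fun ξ hξ => hl ξ (List.mem_cons_of_mem a hξ)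
      obtain ⟨m, hm⟩ := Set.mem_iUnion.1 (hl a List.mem_cons_self)
      refine ⟨max n m, fun ξ hξ => ?_⟩
      rcases List.mem_cons.1 hξ with rfl | hξ
      · exact hmono (le_max_right n m) hm
      · exact hmono (le_max_left n m) (hn ξ hξ)
  obtain ⟨n, hn⟩ := h1
  refine Set.Subset.trans ?_ (Set.subset_iUnion B (n + 1))
  rw [hBs]
  exact Set.Subset.trans (Set.subset_biUnion_of_mem (u := fun l => G l) (show l ∈ {l : List O | ∀ ξ ∈ l, ξ ∈ B n} from hn))
    Set.subset_union_right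

namespace Code

variable (K : Code)

theorem exists_nice0 (G : List O → Set O) (hG : Fn G) (A : Set O) (hA : A.Countable) :
    ∃ N : Set O, K.Nice0 N ∧ A ⊆ N ∧ Cl G N := by
  classical
  obtain ⟨F1, hF1, h1⟩ := exists_merge_in K (X := O) K.fn (fun x l => K.fn_count x l)
  obtain ⟨F2, hF2, h2⟩ := exists_const (Set.range (fun n : ℕ => (n : O))) (Set.countable_range _)
  obtain ⟨F3, hF3, h3⟩ := exists_merge_in K (X := O) (fun ξ _ => if ξ < w1 then Set.Iio ξ else ∅) (by
    intro ξ l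
    by_cases h : ξ < w1
    · simp only [if_pos h]
      exact Close_Iio h
    · simp only [if_neg h]
      exact Set.countable_empty)
  obtain ⟨F4, hF4, h4⟩ := exists_merge_in K (X := Set O) (fun M _ => if M.Countable then M else ∅) (by
    intro M l
    by_cases h : M.Countable
    · simp only [if_pos h]
      exact h
    · simp only [if_neg h]
      exact Set.countable_empty)
  obtain ⟨F5, hF5, h5⟩ := exists_merge_in K (X := Set O × O) (fun p _ => {K.cn (p.1 ∩ Set.Iio p.2)})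
    (fun p l => Set.countable_singleton _)
  obtain ⟨F6, hF6, h6⟩ := exists_merge_in K (X := Set O)
    (fun M _ => {δ : O | M ∩ Set.Iio w1 = Set.Iio δ}) (by
    intro M l
    refine Set.Subsingleton.countable ?_
    intro a ha b hb
    exact Set.Iio_injective (ha.symm.trans hb))
  obtain ⟨E1, hE1, e1⟩ := exists_merge2 F1 F2 hF1 hF2
  obtain ⟨E2, hE2, e2⟩ := exists_merge2 F3 F4 hF3 hF4
  obtain ⟨E3, hE3, e3⟩ := exists_merge2 F5 F6 hF5 hF6
  obtain ⟨E4, hE4, e4⟩ := exists_merge2 E1 E2 hE1 hE2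
  obtain ⟨E5, hE5, e5⟩ := exists_merge2 E3 G hE3 hG
  obtain ⟨E, hE, e⟩ := exists_merge2 E4 E5 hE4 hE5
  obtain ⟨N, hN, hAN, hEN⟩ := exists_closed E hE A hA
  obtain ⟨c4, c5⟩ := e N hEN
  obtain ⟨c1, c2⟩ := e4 N c4
  obtain ⟨c3, cG⟩ := e5 N c5
  obtain ⟨d1, d2⟩ := e1 N c1
  obtain ⟨d3, d4⟩ := e2 N c2
  obtain ⟨d5, d6⟩ := e3 N c3
  refine ⟨N, ⟨hN, ?_, ?_, ?_, ?_, ?_, ?_⟩, hAN, cG⟩
  · exact fun x hx => h1 N d1 x hx
  · intro n
    exact h2 N d2 ⟨n, rfl⟩
  · intro ξ hξ hξ1
    have := h3 N d3 ξ hξ [] (by simp)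
    simp only [if_pos hξ1] at this
    exact this
  · intro M hM hMN
    have := h4 N d4 M ⟨hM, hMN⟩ [] (by simp)
    simp only [if_pos hM] at this
    exact this
  · intro M hM hMN α hα
    have := h5 N d5 (M, α) ⟨⟨hM, hMN⟩, hα⟩ [] (by simp)
    exact this (Set.mem_singleton _)
  · intro M hM hMN δ _ hδ
    have := h6 N d6 M ⟨hM, hMN⟩ [] (by simp)
    exact this hδ

theorem exists_nice (G : List O → Set O) (hG : Fn G) (A : Set O) (hA : A.Countable) :
    ∃ N : Set O, K.Nice N ∧ A ⊆ N ∧ Cl G N := by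
  obtain ⟨N, h1, h2, h3⟩ := K.exists_nice0 G hG (insert K.xb A) (hA.insert _)
  exact ⟨N, ⟨h1, h2 (Set.mem_insert _ _)⟩, (Set.subset_insert _ _).trans h2, h3⟩

end Code

end Pool.Agent.Lib.MP_8f49b0_lc.MM
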