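import Pool.Agent.Lib.MP_8f49b0_lc.MM.S.CodeCl
import Pool.Agent.Lib.MP_8f49b0_lc.MM.S.Close

/-! # The bottom node (module S-BOT)

`exists_bot`: apply `exists_sk` to `X = O × Finset (O × ℕ × Bool)`, `Y = Pre × O`, `R (y, v) d` iff `d ∈ K.en 0 y`, `d ∈ RS V0`, `v ⊆ d.1.u`, and code the function by
`exists_code_cl` with `R = True` (`γ = w1`). For `K.Nice0 N`, `x ∈ N` the set `N ∩ Set.Iio β` is closed under the function, and `y < io 0 ≤ β` if `K.en 0 y` is dense (`en_out`, `Tr.io`).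
For `a' = (⟨∅, ∅, v⟩, h)` let `v'` be the part of `v` with ordinals in `N`; the reflected `d` has all its ordinals in `N`, and `v ∪ d.1.u` is a function. -/

namespace Pool.Agent.Lib.MP_8f49b0_lc.MM

namespace Code

variable (K : Code)

private theorem BotEx_leR {x : O} (hL : ∀ g ∈ V0, ∀ h' < w1, ∀ h < w1, K.L x g h' h) {a b : Pre × O}
    (ha : a ∈ RS V0) (hb : b ∈ RS V0) (h : b.1.u ⊆ a.1.u) : K.leR x a b := by
  refine ⟨⟨h, ?_, ?_⟩, hL a.1 ha.1 a.2 ha.2 b.2 hb.2⟩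
  · rw [hb.1.2.1]
    exact Finset.empty_subset _
  · rw [hb.1.1]
    intro t ht
    exact absurd ht (Finset.notMem_empty t)

theorem exists_bot : ∃ x, K.Bot x := by
  classical
  obtain ⟨F, hF, hsk⟩ := exists_sk K (X := O × Finset (O × ℕ × Bool)) (Y := Pre × O)
    (fun q d => d ∈ K.en 0 q.1 ∧ d ∈ RS V0 ∧ q.2 ⊆ d.1.u) (by
      rintro q d ⟨_, hV, _⟩
      refine ⟨{d.2} ∪ {ξ | ∃ v ∈ d.1.u, v.1 = ξ}, ⟨⟨?_, ?_, ?_⟩, ?_⟩⟩
      · intro t ht
        rw [hV.1.1] at ht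
        exact absurd ht (Finset.notMem_empty t)
      · intro M hM
        rw [hV.1.2.1] at hM
        exact absurd hM (Finset.notMem_empty M)
      · intro v hv
        exact Or.inr ⟨v, hv, rfl⟩
      · exact Or.inl (Set.mem_singleton _))
  obtain ⟨x, β, hβ, hTr, hL, hcl⟩ := K.exists_code_cl F hF w1 (fun _ _ _ => True)
  have hL' : ∀ g ∈ V0, ∀ h' < w1, ∀ h < w1, K.L x g h' h := by
    intro g hg h' hh' h hh
    refine (hL g h' h ⟨?_, ?_, hg.2.2.2⟩ hh' hh).2 trivial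
    · intro t ht
      rw [hg.1] at ht
      exact absurd ht (Finset.notMem_empty t)
    · intro M hM
      rw [hg.2.1] at hM
      exact absurd hM (Finset.notMem_empty M)
  have h0 : (0 : O) < w1 := Ordinal.omega0_pos.trans_le (Ordinal.omega0_le_omega 1)
  refine ⟨x, hL', ?_⟩
  intro N hN hx a ha y hy hD a' ha' haa
  obtain ⟨_, hclN⟩ := hcl N hN hx
  obtain ⟨d0, hd0, _⟩ := hD.dense a' ha'
  have hyβ : y < β := by
    have h1 : y < K.io 0 := by
      by_contra h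
      rw [K.en_out 0 y (not_lt.1 h)] at hd0
      exact hd0
    exact h1.trans_le (hTr.io 0 (h0.trans hβ))
  let v0 : Finset (O × ℕ × Bool) := a'.1.u.filter (fun v => v.1 ∈ N)
  have hv0 : ((⟨∅, ∅, v0⟩ : Pre), (0 : O)) ∈ RS V0 := by
    refine ⟨⟨rfl, rfl, ?_, ?_⟩, h0⟩
    · intro ξ n b b' hb hb'
      exact ha'.1.2.2.1 ξ n b b' (Finset.mem_filter.1 hb).1 (Finset.mem_filter.1 hb').1
    · intro v hv
      exact ha'.1.2.2.2 v (Finset.mem_filter.1 hv).1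
  obtain ⟨d1, hd1, hd1le⟩ := hD.dense _ hv0
  obtain ⟨d, hdN, hd, hdV, hdu⟩ := hsk (N ∩ Set.Iio β) hclN (y, v0)
    ⟨⟨hy, hyβ⟩, fun v hv => ⟨⟨(Finset.mem_filter.1 hv).2, (ha'.1.2.2.2 v (Finset.mem_filter.1 hv).1).trans hβ⟩,
      trivial, trivial⟩⟩ ⟨d1, hd1, hD.sub hd1, hd1le.le.u⟩
  have hdP : K.PIn (N ∩ Set.Iio β) d.1 := hdN.1
  have hd2 : d.2 ∈ N ∩ Set.Iio β := hdN.2
  have hU : ((⟨∅, ∅, a'.1.u ∪ d.1.u⟩ : Pre), (0 : O)) ∈ RS V0 := by
    refine ⟨⟨rfl, rfl, ?_, ?_⟩, h0⟩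
    · intro ξ n b b' hb hb'
      by_cases hξ : ξ ∈ N
      · have key : ∀ b, (ξ, n, b) ∈ a'.1.u ∪ d.1.u → (ξ, n, b) ∈ d.1.u := by
          intro b hb
          rcases Finset.mem_union.1 hb with h | h
          · exact hdu (Finset.mem_filter.2 ⟨h, hξ⟩)
          · exact h
        exact hdV.1.2.2.1 ξ n b b' (key b hb) (key b' hb')
      · have key : ∀ b, (ξ, n, b) ∈ a'.1.u ∪ d.1.u → (ξ, n, b) ∈ a'.1.u := by
          intro b hb
          rcases Finset.mem_union.1 hb with h | h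
          · exact h
          · exact absurd (hdP.u _ h).1 hξ
        exact ha'.1.2.2.1 ξ n b b' (key b hb) (key b' hb')
    · intro v hv
      rcases Finset.mem_union.1 hv with h | h
      · exact ha'.1.2.2.2 v h
      · exact hdV.1.2.2.2 v h
  refine ⟨_, hU, BotEx_leR K hL' hU ha' Finset.subset_union_left, d, hd, ⟨?_, hd2.1⟩,
    BotEx_leR K hL' hU hdV Finset.subset_union_right⟩
  exact ⟨fun t ht => ⟨(hdP.T t ht).1.1, (hdP.T t ht).2.1.1, (hdP.T t ht).2.2.1⟩,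
    fun M hM => ⟨(hdP.C M hM).1, (hdP.C M hM).2.1⟩, fun v hv => (hdP.u v hv).1⟩

theorem bot_xb : K.Bot K.xb := csInf_mem (s := {x | K.Bot x}) K.exists_bot

end Code

end Pool.Agent.Lib.MP_8f49b0_lc.MM
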