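import Pool.Agent.Lib.MP_8f49b0_lc.MM.S.BotEx

/-! # Cohen reals are increasing (module S-BOTINC)

`inc_bot`: by `exists_sk` and `exists_nice` let `N` be a node such that for every finite `v` (a function) with ordinals in `N` and every pattern `s : ι → Finset (ℕ × Bool)` (or list of digits) :
if there is `z ∈ Z` such that `z.1.1.u ∪ v` is a function, `z.1.1.u ∪ v` contains `(z.2 i, n, b)` for all `(n, b) ∈ s i`, then there is such a `z` with all the ordinals in `N`
(`R` on `X = Finset (O × ℕ × Bool) × (ι → Finset (ℕ × Bool))`, `Y = (Pre × O) × (ι → O)`); `a0` in `N`.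
Let `δ < w1` with `ξ ∈ N ↔ ξ < δ`. Take (hypothesis with `γ ≥ δ`) `z ∈ Z` with `δ < z.2 i` and `w = u a'` for `a' ≤ a0, z`, and extend `w` to a function `w'` such that
for every `i` the digits `m < n` of `z.2 i` are decided by `w'`, with the same `n` for all `i`, bigger than every digit in `w`; let `v` be the part of `w'` with ordinals in `N`, `s i` the decided digits of `z.2 i`
(the `z.2 i` are not in `N`). The relation above is satisfied by `z` (with `w'` instead of `z.1.1.u ∪ v`: formulate `R` with a witness `w'' ⊇ z.1.1.u ∪ v`),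
hence by some `z'` in `N`. Then `w' ∪ (witness for z')` is a function; extend it by `(z'.2 i, n, false)` and `(z.2 i, n, true)` (`z'.2 i ≠ z.2 j`; nothing is decided at `n`:
choose the witness for `z'` in `N` too and `n` such that ... - alternatively reflect the witness first and then choose the digit `n` as the first digit which is not decided for any of the finitely many reals, after filling up
the digits of `z'.2 i` and `z.2 i` with the same values below `n`). -/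

namespace Pool.Agent.Lib.MP_8f49b0_lc.MM

namespace Code

variable (K : Code)

private theorem BotInc_leR {a b : Pre × O} (ha : a ∈ RS V0) (hb : b ∈ RS V0) (h : b.1.u ⊆ a.1.u) :
    K.leR K.xb a b := by
  refine ⟨⟨h, ?_, ?_⟩, K.bot_xb.L a.1 ha.1 a.2 ha.2 b.2 hb.2⟩
  · rw [hb.1.2.1]
    exact Finset.empty_subset _
  · rw [hb.1.1]
    intro t ht
    exact absurd ht (Finset.notMem_empty t)

/-- `w` is a function with ordinals below `ω₁` -/
private structure BotInc_Fp (w : Finset (O × ℕ × Bool)) : Prop where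
  f : ∀ ξ n b b', (ξ, n, b) ∈ w → (ξ, n, b') ∈ w → b = b'
  lt : ∀ v ∈ w, v.1 < w1

private structure BotInc_R {ι : Type} (Z : Set ((Pre × O) × (ι → O)))
    (q : Finset (O × ℕ × Bool) × (ι → List Bool))
    (y : ((Pre × O) × (ι → O)) × Finset (O × ℕ × Bool)) : Prop where
  mem : y.1 ∈ Z
  lt : ∀ i, y.1.2 i < w1
  fp : BotInc_Fp y.2
  sub : q.1 ⊆ y.2
  sub' : y.1.1.1.u ⊆ y.2
  pat : ∀ i m, m < (q.2 i).length → (y.1.2 i, m, (q.2 i).getD m false) ∈ y.2

private theorem BotInc_bound (w : Finset (O × ℕ × Bool)) : ∃ n : ℕ, ∀ v ∈ w, v.2.1 < n := by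
  refine ⟨(w.sup fun v => v.2.1) + 1, fun v hv => ?_⟩
  have : v.2.1 ≤ w.sup fun v => v.2.1 := Finset.le_sup (f := fun v : O × ℕ × Bool => v.2.1) hv
  omega

theorem inc_bot : K.Inc V0 K.xb := by
  classical
  intro ι hι Z hZ a0 ha0 hyp
  have := Fintype.ofFinite ι
  obtain ⟨F, hF, hsk⟩ := exists_sk K (X := Finset (O × ℕ × Bool) × (ι → List Bool))
    (Y := ((Pre × O) × (ι → O)) × Finset (O × ℕ × Bool)) (BotInc_R Z) (by
      intro q y hy
      have hV := hZ _ hy.mem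
      refine ⟨{y.1.1.2} ∪ (Set.range y.1.2 ∪ {ξ | ∃ v ∈ y.2, v.1 = ξ}), ⟨⟨⟨?_, ?_⟩, ?_⟩, ?_⟩⟩
      · refine ⟨fun t ht => ?_, fun M hM => ?_, fun v hv => ?_⟩
        · rw [hV.1.1] at ht
          exact absurd ht (Finset.notMem_empty t)
        · rw [hV.1.2.1] at hM
          exact absurd hM (Finset.notMem_empty M)
        · exact Or.inr (Or.inr ⟨v, hy.sub' hv, rfl⟩)
      · exact Or.inl (Set.mem_singleton _)
      · intro i
        exact Or.inr (Or.inl ⟨i, rfl⟩)
      · intro v hv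
        exact ⟨Or.inr (Or.inr ⟨v, hv, rfl⟩), trivial, trivial⟩)
  obtain ⟨N, hN, _, hNF⟩ := K.exists_nice F hF ∅ Set.countable_empty
  obtain ⟨δ, hδ, hδN⟩ := hN.exists_delta
  obtain ⟨z, hz, hzi, a', ha', ha'0, ha'z⟩ := hyp a0 ha0 (BotInc_leR K ha0 ha0 (Finset.Subset.refl _)) δ hδ
  have hzN : ∀ i, z.2 i ∉ N := fun i hi => absurd ((hδN _ (hzi i).2).1 hi) (not_lt.2 (hzi i).1.le)
  obtain ⟨n0, hn0⟩ := BotInc_bound a'.1.u
  -- the function `w'`
  let g : ι → ℕ → Bool := fun i m => if (z.2 i, m, true) ∈ a'.1.u then true else false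
  have hafun : ∀ ξ n b b', (ξ, n, b) ∈ a'.1.u → (ξ, n, b') ∈ a'.1.u → b = b' := ha'.1.2.2.1
  have halt : ∀ v ∈ a'.1.u, v.1 < w1 := ha'.1.2.2.2
  have hg : ∀ i m b, (z.2 i, m, b) ∈ a'.1.u → b = g i m := by
    intro i m b hb
    by_cases h : (z.2 i, m, true) ∈ a'.1.u
    · simp only [g, if_pos h]
      exact hafun _ _ _ _ hb h
    · simp only [g, if_neg h]
      cases b with
      | true => exact absurd hb h
      | false => rfl
  have hgeq : ∀ i j m, z.2 i = z.2 j → g i m = g j m := by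
    intro i j m hij
    simp only [g, hij]
  let W : Finset (O × ℕ × Bool) := a'.1.u ∪
    (Finset.univ ×ˢ Finset.range n0).image (fun p : ι × ℕ => (z.2 p.1, p.2, g p.1 p.2))
  have hWmem : ∀ v, v ∈ W ↔ v ∈ a'.1.u ∨ ∃ i m, m < n0 ∧ v = (z.2 i, m, g i m) := by
    intro v
    simp only [W, Finset.mem_union, Finset.mem_image, Finset.mem_product, Finset.mem_univ, true_and,
      Finset.mem_range, Prod.exists]
    constructor
    · rintro (h | ⟨i, m, h1, h2⟩)
      · exact Or.inl h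
      · exact Or.inr ⟨i, m, h1, h2.symm⟩
    · rintro (h | ⟨i, m, h1, h2⟩)
      · exact Or.inl h
      · exact Or.inr ⟨i, m, h1, h2.symm⟩
  have hWfp : BotInc_Fp W := by
    constructor
    · intro ξ n b b' hb hb'
      rcases (hWmem _).1 hb with h | ⟨i, m, hm, h⟩
      · rcases (hWmem _).1 hb' with h' | ⟨i', m', hm', h'⟩
        · exact hafun _ _ _ _ h h'
        · simp only [Prod.mk.injEq] at h'
          obtain ⟨rfl, rfl, rfl⟩ := h'
          exact hg _ _ _ h
      · simp only [Prod.mk.injEq] at h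
        obtain ⟨rfl, rfl, rfl⟩ := h
        rcases (hWmem _).1 hb' with h' | ⟨i', m', hm', h'⟩
        · exact (hg _ _ _ h').symm
        · simp only [Prod.mk.injEq] at h'
          obtain ⟨h1, rfl, rfl⟩ := h'
          exact hgeq i i' n h1
    · intro v hv
      rcases (hWmem _).1 hv with h | ⟨i, m, hm, rfl⟩
      · exact halt v h
      · exact (hzi i).2
  have hWdig : ∀ v ∈ W, v.2.1 < n0 := by
    intro v hv
    rcases (hWmem _).1 hv with h | ⟨i, m, hm, rfl⟩
    · exact hn0 v h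
    · exact hm
  -- reflection
  let v0 : Finset (O × ℕ × Bool) := W.filter (fun v => v.1 ∈ N)
  let σ : ι → List Bool := fun i => (List.range n0).map (g i)
  have hσl : ∀ i, (σ i).length = n0 := fun i => by simp [σ]
  have hσg : ∀ i m, m < n0 → (σ i).getD m false = g i m := by
    intro i m hm
    simp [σ, hm]
  have hW0 : BotInc_R Z (v0, σ) (z, W) := by
    refine ⟨hz, fun i => (hzi i).2, hWfp, Finset.filter_subset _ _, ?_, ?_⟩
    · intro v hv
      exact (hWmem v).2 (Or.inl (ha'z.le.u hv))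
    · intro i m hm
      have hm' : m < n0 := by rw [← hσl i]; exact hm
      rw [hσg i m hm']
      exact (hWmem _).2 (Or.inr ⟨i, m, hm', rfl⟩)
  obtain ⟨⟨z', W'⟩, hyN, hy⟩ := hsk N hNF (v0, σ) ⟨fun v hv => ⟨(Finset.mem_filter.1 hv).2, trivial, trivial⟩,
    fun i b _ => trivial⟩ ⟨_, hW0⟩
  have hz'N : ∀ i, z'.2 i ∈ N := hyN.1.2
  have hW'N : ∀ v ∈ W', v.1 ∈ N := fun v hv => (hyN.2 v hv).1
  obtain ⟨n1', hn1'⟩ := BotInc_bound W'
  obtain ⟨n1, hn1, hn01⟩ : ∃ n1, (∀ v ∈ W', v.2.1 < n1) ∧ n0 ≤ n1 :=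
    ⟨max n1' n0, fun v hv => (hn1' v hv).trans_le (le_max_left _ _), le_max_right _ _⟩
  have hz'lt : ∀ i, z'.2 i < w1 := hy.lt
  have hW'fp : BotInc_Fp W' := hy.fp
  -- the digits of the reals in `N`
  let g' : ι → ℕ → Bool := fun i m => if (z'.2 i, m, true) ∈ W' then true else false
  have hg' : ∀ i m b, (z'.2 i, m, b) ∈ W' → b = g' i m := by
    intro i m b hb
    by_cases h : (z'.2 i, m, true) ∈ W'
    · simp only [g', if_pos h]
      exact hW'fp.f _ _ _ _ hb h
    · simp only [g', if_neg h]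
      cases b with
      | true => exact absurd hb h
      | false => rfl
  have hgeq' : ∀ i j m, z'.2 i = z'.2 j → g' i m = g' j m := by
    intro i j m hij
    simp only [g', hij]
  have hgn1 : ∀ i, g' i n1 = false := by
    intro i
    have : (z'.2 i, n1, true) ∉ W' := fun h => absurd (hn1 _ h) (lt_irrefl _)
    simp only [g', if_neg this]
  have hgg' : ∀ i m, m < n0 → g' i m = g i m := by
    intro i m hm
    have h1 := hy.pat i m (by rw [hσl i]; exact hm)
    simp only at h1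
    rw [hσg i m hm] at h1
    exact (hg' i m _ h1).symm
  -- the final function
  let U : Finset (O × ℕ × Bool) := (W ∪ W') ∪
    ((Finset.univ ×ˢ Finset.range (n1 + 1)).image (fun p : ι × ℕ => (z'.2 p.1, p.2, g' p.1 p.2)) ∪
    ((Finset.univ ×ˢ Finset.range (n1 + 1)).image (fun p : ι × ℕ =>
      (z.2 p.1, p.2, if p.2 < n0 then g p.1 p.2 else true))))
  have hUmem : ∀ v, v ∈ U ↔ (v ∈ W ∨ v ∈ W') ∨ (∃ i m, m ≤ n1 ∧ v = (z'.2 i, m, g' i m)) ∨
      ∃ i m, m ≤ n1 ∧ v = (z.2 i, m, if m < n0 then g i m else true) := by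
    intro v
    simp only [U, Finset.mem_union, Finset.mem_image, Finset.mem_product, Finset.mem_univ, true_and,
      Finset.mem_range, Prod.exists, Nat.lt_succ_iff]
    constructor
    · rintro (h | ⟨i, m, h1, h2⟩ | ⟨i, m, h1, h2⟩)
      · exact Or.inl h
      · exact Or.inr (Or.inl ⟨i, m, h1, h2.symm⟩)
      · exact Or.inr (Or.inr ⟨i, m, h1, h2.symm⟩)
    · rintro (h | ⟨i, m, h1, h2⟩ | ⟨i, m, h1, h2⟩)
      · exact Or.inl h
      · exact Or.inr (Or.inl ⟨i, m, h1, h2.symm⟩)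
      · exact Or.inr (Or.inr ⟨i, m, h1, h2.symm⟩)
  -- elements with ordinals in `N`
  have hUN : ∀ ξ n b, ξ ∈ N → (ξ, n, b) ∈ U → (ξ, n, b) ∈ W' ∨ ∃ i, ξ = z'.2 i ∧ b = g' i n := by
    intro ξ n b hξ h
    rcases (hUmem _).1 h with (h | h) | ⟨i, m, _, h⟩ | ⟨i, m, _, h⟩
    · exact Or.inl (hy.sub (Finset.mem_filter.2 ⟨h, hξ⟩))
    · exact Or.inl h
    · simp only [Prod.mk.injEq] at h
      obtain ⟨h1, rfl, h3⟩ := h
      exact Or.inr ⟨i, h1, h3⟩
    · simp only [Prod.mk.injEq] at h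
      exact absurd (h.1 ▸ hξ) (hzN i)
  have hUnN : ∀ ξ n b, ξ ∉ N → (ξ, n, b) ∈ U → ((ξ, n, b) ∈ W ∧ n < n0) ∨
      ∃ i, ξ = z.2 i ∧ b = if n < n0 then g i n else true := by
    intro ξ n b hξ h
    rcases (hUmem _).1 h with (h | h) | ⟨i, m, _, h⟩ | ⟨i, m, _, h⟩
    · exact Or.inl ⟨h, hWdig _ h⟩
    · exact absurd (hW'N _ h) hξ
    · simp only [Prod.mk.injEq] at h
      exact absurd (hz'N i) (h.1 ▸ hξ)
    · simp only [Prod.mk.injEq] at h
      obtain ⟨h1, rfl, h3⟩ := h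
      exact Or.inr ⟨i, h1, h3⟩
  have hUfp : BotInc_Fp U := by
    constructor
    · intro ξ n b b' hb hb'
      by_cases hξ : ξ ∈ N
      · rcases hUN _ _ _ hξ hb with h | ⟨i, rfl, rfl⟩
        · rcases hUN _ _ _ hξ hb' with h' | ⟨i, rfl, rfl⟩
          · exact hW'fp.f _ _ _ _ h h'
          · exact hg' _ _ _ h
        · rcases hUN _ _ _ hξ hb' with h' | ⟨j, hj, rfl⟩
          · exact (hg' _ _ _ h').symm
          · exact hgeq' i j n hj
      · rcases hUnN _ _ _ hξ hb with ⟨h, hn⟩ | ⟨i, rfl, rfl⟩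
        · rcases hUnN _ _ _ hξ hb' with ⟨h', _⟩ | ⟨i, rfl, rfl⟩
          · exact hWfp.f _ _ _ _ h h'
          · rw [if_pos hn]
            exact hWfp.f _ _ _ _ h ((hWmem _).2 (Or.inr ⟨i, n, hn, rfl⟩))
        · rcases hUnN _ _ _ hξ hb' with ⟨h', hn⟩ | ⟨j, hj, rfl⟩
          · rw [if_pos hn]
            exact hWfp.f _ _ _ _ ((hWmem _).2 (Or.inr ⟨i, n, hn, rfl⟩)) h'
          · rw [hgeq i j n hj]
    · intro v hv
      rcases (hUmem _).1 hv with (h | h) | ⟨i, m, _, rfl⟩ | ⟨i, m, _, rfl⟩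
      · exact hWfp.lt v h
      · exact hW'fp.lt v h
      · exact hz'lt i
      · exact (hzi i).2
  have hV : ((⟨∅, ∅, U⟩ : Pre), (0 : O)) ∈ RS V0 :=
    ⟨⟨rfl, rfl, hUfp.f, hUfp.lt⟩, (Ordinal.omega0_pos.trans_le (Ordinal.omega0_le_omega 1))⟩
  have hWU : W ⊆ U := fun v hv => (hUmem v).2 (Or.inl (Or.inl hv))
  have hW'U : W' ⊆ U := fun v hv => (hUmem v).2 (Or.inl (Or.inr hv))
  have haW : a'.1.u ⊆ W := fun v hv => (hWmem v).2 (Or.inl hv)
  refine ⟨z', hy.mem, z, hz, (⟨∅, ∅, U⟩, 0), hV, ?_, ?_, ?_, ?_⟩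
  · exact BotInc_leR K hV ha0 ((ha'0.le.u.trans haW).trans hWU)
  · exact BotInc_leR K hV (hZ _ hy.mem) (hy.sub'.trans hW'U)
  · exact BotInc_leR K hV (hZ _ hz) ((ha'z.le.u.trans haW).trans hWU)
  · intro i
    have hex : ∃ n, n0 ≤ n ∧ g' i n = false := ⟨n1, hn01, hgn1 i⟩
    let n := Nat.find hex
    have hn : n0 ≤ n ∧ g' i n = false := Nat.find_spec hex
    have hn1n : n ≤ n1 := Nat.find_min' hex ⟨hn01, hgn1 i⟩
    refine ⟨n, ?_, ?_, ?_⟩
    · intro m hm
      refine ⟨g' i m, (hUmem _).2 (Or.inr (Or.inl ⟨i, m, hm.le.trans hn1n, rfl⟩)),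
        (hUmem _).2 (Or.inr (Or.inr ⟨i, m, hm.le.trans hn1n, ?_⟩))⟩
      by_cases hm0 : m < n0
      · rw [if_pos hm0, hgg' i m hm0]
      · rw [if_neg hm0]
        have := Nat.find_min hex hm
        have h2 : g' i m ≠ false := fun h => this ⟨not_lt.1 hm0, h⟩
        rw [Bool.eq_true_of_not_eq_false h2]
    · rw [← hn.2]
      exact (hUmem _).2 (Or.inr (Or.inl ⟨i, n, hn1n, rfl⟩))
    · refine (hUmem _).2 (Or.inr (Or.inr ⟨i, n, hn1n, ?_⟩))
      rw [if_neg (not_lt.2 hn.1)]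

end Code

end Pool.Agent.Lib.MP_8f49b0_lc.MM
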