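import Pool.Agent.Lib.MP_8f49b0_lc.MM.S.Small

/-! # Codes of countable sets (module S-CNEX)

The type of all countable sets of ordinals is the union over `β` of the small types `{N // N.Countable ∧ N ⊆ Set.Iio β}` (`small_countable`). One possible construction: by transfinite recursion (or with an
ordinal-valued choice of intervals) attach to every `β` an ordinal `a β ≥ β` and an injection `j β` of `{N // N.Countable ∧ N ⊆ Set.Iio β}` into `Set.Iio (b β)`, where `a β` is at least all `a γ + b γ`, `γ < β`; put
`cn N = a β + j β N`, where `β` is the least ordinal with `N ⊆ Set.Iio β`. Another one: an injection `i` of all countable sets into `O` (all `β × Shrink _` inject into `O × O`, and `O × O` injects into `O`, e.g. by cardinality), and then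
`cn N = max`-free coding by an injection of `O × O` into `O` which is bigger than both arguments. -/

namespace Pool.Agent.Lib.MP_8f49b0_lc.MM

/-- starting points of disjoint intervals of length `b β` -/
private noncomputable def cnA (b : O → O) : O → O :=
  WellFounded.fix (C := fun _ => O) Ordinal.lt_wf
    (fun β IH => ⨆ γ : Set.Iio β, (IH γ.1 γ.2 + b γ.1))

private theorem cnA_eq (b : O → O) (β : O) :
    cnA b β = ⨆ γ : Set.Iio β, (cnA b γ.1 + b γ.1) := by
  rw [cnA, WellFounded.fix_eq]

private theorem cnA_le (b : O → O) {γ β : O} (h : γ < β) : cnA b γ + b γ ≤ cnA b β := by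
  rw [cnA_eq b β]
  exact Ordinal.le_iSup (fun γ : Set.Iio β => cnA b γ.1 + b γ.1) ⟨γ, h⟩

private theorem cnA_ge (b : O → O) (hb : ∀ β, 0 < b β) (β : O) : β ≤ cnA b β := by
  have h : StrictMono (cnA b) := by
    intro γ β h
    refine lt_of_lt_of_le ?_ (cnA_le b h)
    exact (lt_add_iff_pos_right _).mpr (hb γ)
  exact h.le_apply

private theorem cnEx_inj (S : Type*) [Small.{0} S] : ∃ g : S → O, Function.Injective g := by
  classical
  let r : Shrink.{0} S → Shrink.{0} S → Prop := WellOrderingRel
  refine ⟨fun s => Ordinal.typein r (equivShrink S s), fun s s' h => ?_⟩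
  exact (equivShrink S).injective (Ordinal.typein_injective r h)

theorem exists_cn : ∃ cn : Set O → O, (∀ N : Set O, N.Countable → ∀ ξ ∈ N, ξ < cn N) ∧
    ∀ N N' : Set O, N.Countable → N'.Countable → cn N = cn N' → N = N' := by
  classical
  have h : ∀ β : O, ∃ g : {N : Set O // N.Countable ∧ N ⊆ Set.Iio β} → O, Function.Injective g := by
    intro β
    have := small_countable β
    exact cnEx_inj _
  choose j hj using h
  have h2 : ∀ β : O, ∃ b : O, ∀ N, j β N < b := by
    intro β
    have := small_countable β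
    exact exists_bound (j β)
  choose b hb using h2
  have hb0 : ∀ β, 0 < b β := fun β =>
    lt_of_le_of_lt zero_le (hb β ⟨∅, Set.countable_empty, Set.empty_subset _⟩)
  -- bounds of countable sets
  have h3 : ∀ N : Set O, N.Countable → ∃ β, N ⊆ Set.Iio β := by
    intro N hN
    have : Countable N := hN.to_subtype
    obtain ⟨β, hβ⟩ := exists_bound (X := N) Subtype.val
    exact ⟨β, fun x hx => hβ ⟨x, hx⟩⟩
  let bt : Set O → O := fun N => sInf {β | N ⊆ Set.Iio β}
  have hbt : ∀ N : Set O, N.Countable → N ⊆ Set.Iio (bt N) := fun N hN =>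
    csInf_mem (s := {β | N ⊆ Set.Iio β}) (h3 N hN)
  refine ⟨fun N => if hN : N.Countable then cnA b (bt N) + j (bt N) ⟨N, hN, hbt N hN⟩ else 0, ?_, ?_⟩
  · intro N hN ξ hξ
    simp only [dif_pos hN]
    exact lt_of_lt_of_le (lt_of_lt_of_le (hbt N hN hξ) (cnA_ge b hb0 _)) le_self_add
  · intro N N' hN hN' h
    simp only [dif_pos hN, dif_pos hN'] at h
    rcases lt_trichotomy (bt N) (bt N') with hlt | heq | hlt
    · exfalso
      have h4 : cnA b (bt N) + j (bt N) ⟨N, hN, hbt N hN⟩ < cnA b (bt N') :=
        lt_of_lt_of_le ((add_lt_add_iff_left _).mpr (hb _ _)) (cnA_le b hlt)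
      exact absurd h (ne_of_lt (lt_of_lt_of_le h4 le_self_add))
    · have hcast : ∀ β β' : O, ∀ (e : β = β') (hβ : N ⊆ Set.Iio β) (hβ' : N' ⊆ Set.Iio β'),
          cnA b β + j β ⟨N, hN, hβ⟩ = cnA b β' + j β' ⟨N', hN', hβ'⟩ → N = N' := by
        intro β β' e hβ hβ' h5
        subst e
        have h6 := (add_right_inj _).mp h5
        exact congrArg Subtype.val (hj β h6)
      exact hcast _ _ heq (hbt N hN) (hbt N' hN') h
    · exfalso
      have h4 : cnA b (bt N') + j (bt N') ⟨N', hN', hbt N' hN'⟩ < cnA b (bt N) :=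
        lt_of_lt_of_le ((add_lt_add_iff_left _).mpr (hb _ _)) (cnA_le b hlt)
      exact absurd h (ne_of_gt (lt_of_lt_of_le h4 le_self_add))

end Pool.Agent.Lib.MP_8f49b0_lc.MM
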