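import Mathlib

/-!
# MP_8f49b0_lc: pre-conditions and coding (part S, definitions)

`O` is the class of the ordinals of the lowest universe. A pre-condition consists of a finite set `T` of
transitive nodes `(α, x)` with a working part `h`, a finite set `C` of countable nodes (sets of ordinals)
and a finite Cohen part `u`.
-/

namespace Pool.Agent.Lib.MP_8f49b0_lc.MM

/-- the ordinals of the lowest universe -/
abbrev O := Ordinal.{0}

/-- the first uncountable ordinal -/
noncomputable abbrev w1 : O := Ordinal.omega 1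

/-- pre-conditions -/
@[ext]
structure Pre where
  /-- the transitive nodes `(α, x, h)` -/
  T : Finset (O × O × O)
  /-- the countable nodes -/
  C : Finset (Set O)
  /-- the Cohen part -/
  u : Finset (O × ℕ × Bool)

open Classical in
/-- the restriction of a pre-condition to `α` -/
noncomputable def Pre.res (c : Pre) (α : O) : Pre where
  T := c.T.filter (fun t => t.1 < α)
  C := c.C.filter (fun N => N ⊆ Set.Iio α)
  u := c.u

/-- everything in `c` is below `α` -/
structure Below (α : O) (c : Pre) : Prop where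
  T : ∀ t ∈ c.T, t.1 < α ∧ t.2.1 < α ∧ t.2.2 < w1
  C : ∀ N ∈ c.C, N.Countable ∧ N ⊆ Set.Iio α
  u : ∀ v ∈ c.u, v.1 < w1

/-- `N` is closed under the set-valued function `F` -/
def Cl (F : List O → Set O) (N : Set O) : Prop := ∀ l : List O, (∀ ξ ∈ l, ξ ∈ N) → F l ⊆ N

/-- the coding functions -/
structure Code where
  /-- the countable-valued function coded by an ordinal -/
  fn : O → List O → Set O
  /-- the forcing relation coded by an ordinal: `g` forces `h' ≤ h` -/
  L : O → Pre → O → O → Prop
  /-- a bound of the values of `fn x` -/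
  bd : O → O
  /-- the codes of the countable sets -/
  cn : Set O → O
  /-- the enumeration of the bounded sets of pairs `(g, h)` -/
  en : O → O → Set (Pre × O)
  /-- the length of the enumeration -/
  io : O → O
  fn_count : ∀ x l, (fn x l).Countable
  fn_lt : ∀ x l, fn x l ⊆ Set.Iio (bd x)
  cn_lt : ∀ N : Set O, N.Countable → ∀ ξ ∈ N, ξ < cn N
  cn_inj : ∀ N N' : Set O, N.Countable → N'.Countable → cn N = cn N' → N = N'
  en_surj : ∀ α, ∀ D : Set (Pre × O), (∀ d ∈ D, Below α d.1 ∧ d.2 < w1) → ∃ y < io α, en α y = D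
  en_out : ∀ α y, io α ≤ y → en α y = ∅
  code : ∀ (β : O) (F : List O → Set O) (R : Pre → O → O → Prop), (∀ l, (F l).Countable) →
    (∀ l, F l ⊆ Set.Iio β) → ∃ x, (∀ l, (∀ ξ ∈ l, ξ < β) → fn x l = F l) ∧
      ∀ g h' h, Below β g → h' < w1 → h < w1 → (L x g h' h ↔ R g h' h)

/-- everything which occurs in `c` belongs to `N` -/
structure Code.PIn (K : Code) (N : Set O) (c : Pre) : Prop where
  T : ∀ t ∈ c.T, t.1 ∈ N ∧ t.2.1 ∈ N ∧ t.2.2 ∈ N
  C : ∀ M ∈ c.C, M.Countable ∧ K.cn M ∈ N
  u : ∀ v ∈ c.u, v.1 ∈ N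

/-- the Cohen part `u` decides that the reals with the indices `b i` are less than those with the
indices `b' i` in the lexicographic order -/
def Lt {ι : Type} (u : Finset (O × ℕ × Bool)) (b b' : ι → O) : Prop :=
  ∀ i, ∃ n : ℕ, (∀ m < n, ∃ e, (b i, m, e) ∈ u ∧ (b' i, m, e) ∈ u) ∧
    (b i, n, false) ∈ u ∧ (b' i, n, true) ∈ u

end Pool.Agent.Lib.MP_8f49b0_lc.MM
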