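import Pool.Agent.Lib.MP_8f49b0_lc.MM.S.Defs

/-! # Smallness of the bounded data (module S-SMALL)

All sets of bounded pre-conditions etc. are small: `Below α` only allows finitely many ordinals below `max α ω₁` and
countable subsets of `Set.Iio α`. Hints: `Set.Iio α` is small (`Ordinal.small_Iio`), `Finset X` and `Set X` of a small type
are small; `small_of_injective`, `small_subset`. -/

namespace Pool.Agent.Lib.MP_8f49b0_lc.MM

/-- the bounded pre-conditions form a small type -/
theorem small_below (α : O) : Small.{0} {c : Pre // Below α c} := by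
  let β : O := max α w1
  have hαβ : α ≤ β := le_max_left _ _
  have hwβ : w1 ≤ β := le_max_right _ _
  let f : {c : Pre // Below α c} →
      Set (Set.Iio β × Set.Iio β × Set.Iio β) × Set (Set (Set.Iio β)) × Set (Set.Iio β × ℕ × Bool) :=
    fun c => ({t | ((t.1 : O), (t.2.1 : O), (t.2.2 : O)) ∈ c.1.T},
      {N | (Subtype.val '' N) ∈ c.1.C}, {v | ((v.1 : O), v.2.1, v.2.2) ∈ c.1.u})
  have key : ∀ c c' : {c : Pre // Below α c}, f c = f c' →
      c.1.T ⊆ c'.1.T ∧ c.1.C ⊆ c'.1.C ∧ c.1.u ⊆ c'.1.u := by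
    intro c c' h
    simp only [f, Prod.mk.injEq] at h
    obtain ⟨h1, h2, h3⟩ := h
    refine ⟨?_, ?_, ?_⟩
    · rintro ⟨a, b, d⟩ ht
      obtain ⟨ha, hb, hd⟩ := c.2.T _ ht
      have : ((⟨a, lt_of_lt_of_le ha hαβ⟩, ⟨b, lt_of_lt_of_le hb hαβ⟩, ⟨d, lt_of_lt_of_le hd hwβ⟩) :
          Set.Iio β × Set.Iio β × Set.Iio β) ∈
          {t : Set.Iio β × Set.Iio β × Set.Iio β | ((t.1 : O), (t.2.1 : O), (t.2.2 : O)) ∈ c.1.T} := ht
      rw [h1] at this
      exact this
    · intro N hN
      have hNβ : N ⊆ Set.Iio β := fun x hx => lt_of_lt_of_le ((c.2.C _ hN).2 hx) hαβ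
      have hval : (Subtype.val '' (Subtype.val ⁻¹' N : Set (Set.Iio β)) : Set O) = N := by
        rw [Subtype.image_preimage_coe, Set.inter_eq_right.mpr hNβ]
      have : (Subtype.val ⁻¹' N : Set (Set.Iio β)) ∈
          {N : Set (Set.Iio β) | (Subtype.val '' N : Set O) ∈ c.1.C} := by
        show (Subtype.val '' (Subtype.val ⁻¹' N : Set (Set.Iio β)) : Set O) ∈ c.1.C
        rw [hval]; exact hN
      rw [h2] at this
      have h4 : (Subtype.val '' (Subtype.val ⁻¹' N : Set (Set.Iio β)) : Set O) ∈ c'.1.C := this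
      rwa [hval] at h4
    · rintro ⟨a, n, b⟩ hv
      have ha := c.2.u _ hv
      have : ((⟨a, lt_of_lt_of_le ha hwβ⟩, n, b) : Set.Iio β × ℕ × Bool) ∈
          {v : Set.Iio β × ℕ × Bool | ((v.1 : O), v.2.1, v.2.2) ∈ c.1.u} := hv
      rw [h3] at this
      exact this
  refine small_of_injective (f := f) ?_
  intro c c' h
  obtain ⟨a1, a2, a3⟩ := key c c' h
  obtain ⟨b1, b2, b3⟩ := key c' c h.symm
  exact Subtype.ext (Pre.ext (a1.antisymm b1) (a2.antisymm b2) (a3.antisymm b3))

/-- the pairs `(g, h)` at the level `α` form a small type -/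
theorem small_pairs (α : O) : Small.{0} {d : Pre × O // Below α d.1 ∧ d.2 < w1} := by
  have := small_below α
  refine small_of_injective (β := {c : Pre // Below α c} × Set.Iio w1)
    (f := fun d => (⟨d.1.1, d.2.1⟩, ⟨d.1.2, d.2.2⟩)) ?_
  intro d d' h
  simp only [Prod.mk.injEq, Subtype.mk.injEq] at h
  exact Subtype.ext (Prod.ext h.1 h.2)

/-- the countable subsets of `Set.Iio α` form a small type -/
theorem small_countable (α : O) : Small.{0} {N : Set O // N.Countable ∧ N ⊆ Set.Iio α} := by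
  refine small_of_injective (β := Set (Set.Iio α)) (f := fun N => Subtype.val ⁻¹' N.1) ?_
  intro N N' h
  have h1 : (Subtype.val '' (Subtype.val ⁻¹' N.1 : Set (Set.Iio α)) : Set O) =
      Subtype.val '' (Subtype.val ⁻¹' N'.1 : Set (Set.Iio α)) := congrArg _ h
  rw [Subtype.image_preimage_coe, Subtype.image_preimage_coe, Set.inter_eq_right.mpr N.2.2,
    Set.inter_eq_right.mpr N'.2.2] at h1
  exact Subtype.ext h1

/-- the lists of ordinals below `β` form a small type -/
theorem small_lists (β : O) : Small.{0} {l : List O // ∀ ξ ∈ l, ξ < β} := by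
  refine small_of_injective (β := List (Set.Iio β))
    (f := fun l => l.1.pmap (fun ξ h => (⟨ξ, h⟩ : Set.Iio β)) l.2) ?_
  intro l l' h
  have h1 := congrArg (List.map Subtype.val) h
  simp only [List.map_pmap] at h1
  apply Subtype.ext
  simpa using h1

/-- a function on a small type with values in the ordinals is bounded -/
theorem exists_bound {X : Type*} [Small.{0} X] (f : X → O) : ∃ β, ∀ x, f x < β := by
  have h : BddAbove (Set.range f) := Ordinal.bddAbove_of_small
  obtain ⟨b, hb⟩ := h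
  exact ⟨Order.succ b, fun x => Order.lt_succ_of_le (hb ⟨x, rfl⟩)⟩

end Pool.Agent.Lib.MP_8f49b0_lc.MM
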