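import Pool.Agent.Lib.MP_8f49b0_lc.MM.S.Defs

/-! # Objects with finite support (module S-SP)

`Sp K X`: the elements of `X` are coded by finitely many ordinals; `Sp.In K N x` says that `x` belongs to (the set coded
by) `N`. -/

namespace Pool.Agent.Lib.MP_8f49b0_lc.MM

universe u

/-- types all of whose elements have a finite support -/
class Sp (K : Code) (X : Type u) where
  /-- `x` belongs to `N` -/
  In : Set O → X → Prop
  mono : ∀ {N N' : Set O} {x : X}, N ⊆ N' → In N x → In N' x
  fin : ∀ {N : Set O} {x : X}, In N x → ∃ A : Set O, A.Finite ∧ A ⊆ N ∧ In A x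
  ctb : ∀ {A : Set O}, A.Countable → {x | In A x}.Countable

variable (K : Code)

instance : Sp K O where
  In N x := x ∈ N
  mono h hx := h hx
  fin {N x} hx := ⟨{x}, Set.finite_singleton x, by simpa using hx, by simp⟩
  ctb {A} hA := by simpa using hA

instance : Sp K ℕ where
  In _ _ := True
  mono _ _ := trivial
  fin _ := ⟨∅, Set.finite_empty, Set.empty_subset _, trivial⟩
  ctb _ := Set.to_countable _

instance : Sp K Bool where
  In _ _ := True
  mono _ _ := trivial
  fin _ := ⟨∅, Set.finite_empty, Set.empty_subset _, trivial⟩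
  ctb _ := Set.to_countable _

instance : Sp K Unit where
  In _ _ := True
  mono _ _ := trivial
  fin _ := ⟨∅, Set.finite_empty, Set.empty_subset _, trivial⟩
  ctb _ := Set.to_countable _

/-- countable sets of ordinals are given by their codes -/
instance : Sp K (Set O) where
  In N M := M.Countable ∧ K.cn M ∈ N
  mono h hx := ⟨hx.1, h hx.2⟩
  fin {N M} hx := ⟨{K.cn M}, Set.finite_singleton _, by simpa using hx.2, hx.1, by simp⟩
  ctb {A} hA := by
    refine Set.MapsTo.countable_of_injOn (f := K.cn) (t := A) (fun M hM => hM.2) ?_ hA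
    intro M hM M' hM' h
    exact K.cn_inj M M' hM.1 hM'.1 h

instance {X Y : Type*} [Sp K X] [Sp K Y] : Sp K (X × Y) where
  In N x := Sp.In K N x.1 ∧ Sp.In K N x.2
  mono h hx := ⟨Sp.mono h hx.1, Sp.mono h hx.2⟩
  fin {N x} hx := by
    obtain ⟨A, h1, h2, h3⟩ := Sp.fin hx.1
    obtain ⟨B, h4, h5, h6⟩ := Sp.fin hx.2
    exact ⟨A ∪ B, h1.union h4, Set.union_subset h2 h5, Sp.mono Set.subset_union_left h3,
      Sp.mono Set.subset_union_right h6⟩
  ctb {A} hA := by
    exact ((Sp.ctb (K := K) (X := X) hA).prod (Sp.ctb (K := K) (X := Y) hA)).mono (fun x hx => hx)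

instance {X : Type*} [Sp K X] : Sp K (List X) where
  In N l := ∀ x ∈ l, Sp.In K N x
  mono h hx x hx' := Sp.mono h (hx x hx')
  fin {N l} hx := by
    induction l with
    | nil => exact ⟨∅, Set.finite_empty, Set.empty_subset _, by simp⟩
    | cons a l ih =>
      obtain ⟨A, h1, h2, h3⟩ := ih (fun x hx' => hx x (List.mem_cons_of_mem _ hx'))
      obtain ⟨B, h4, h5, h6⟩ := Sp.fin (hx a List.mem_cons_self)
      refine ⟨A ∪ B, h1.union h4, Set.union_subset h2 h5, fun x hx' => ?_⟩
      rcases List.mem_cons.1 hx' with h | h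
      · subst h
        exact Sp.mono Set.subset_union_right h6
      · exact Sp.mono Set.subset_union_left (h3 x h)
  ctb {A} hA := by
    have hc : ({x : X | Sp.In K A x}).Countable := Sp.ctb hA
    have := hc.to_subtype
    have h := Set.countable_range (List.map (Subtype.val : {x : X | Sp.In K A x} → X))
    rw [Set.range_list_map_coe] at h
    exact h

instance {X : Type*} [Sp K X] : Sp K (Finset X) where
  In N l := ∀ x ∈ l, Sp.In K N x
  mono h hx x hx' := Sp.mono h (hx x hx')
  fin {N l} hx := by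
    classical
    induction l using Finset.induction_on with
    | empty => exact ⟨∅, Set.finite_empty, Set.empty_subset _, by simp⟩
    | insert a l _ ih =>
      obtain ⟨A, h1, h2, h3⟩ := ih (fun x hx' => hx x (Finset.mem_insert_of_mem hx'))
      obtain ⟨B, h4, h5, h6⟩ := Sp.fin (hx a (Finset.mem_insert_self _ _))
      refine ⟨A ∪ B, h1.union h4, Set.union_subset h2 h5, fun x hx' => ?_⟩
      rcases Finset.mem_insert.1 hx' with h | h
      · subst h
        exact Sp.mono Set.subset_union_right h6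
      · exact Sp.mono Set.subset_union_left (h3 x h)
  ctb {A} hA := by
    refine Set.MapsTo.countable_of_injOn (f := Finset.toList) (t := {l : List X | Sp.In K A l}) ?_ ?_ (Sp.ctb hA)
    · intro l hl x hx
      exact hl x (Finset.mem_toList.1 hx)
    · intro l _ l' _ h
      ext x
      rw [← Finset.mem_toList, h, Finset.mem_toList]

instance {X : Type*} [Sp K X] {ι : Type} [Finite ι] : Sp K (ι → X) where
  In N l := ∀ i, Sp.In K N (l i)
  mono h hx i := Sp.mono h (hx i)
  fin {N l} hx := by
    choose A h1 h2 h3 using fun i => Sp.fin (hx i)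
    exact ⟨⋃ i, A i, Set.finite_iUnion h1, Set.iUnion_subset h2, fun i => Sp.mono (Set.subset_iUnion A i) (h3 i)⟩
  ctb {A} hA := by
    exact Set.countable_pi (fun _ => Sp.ctb (K := K) (X := X) hA)

/-- pre-conditions -/
instance : Sp K Pre where
  In N c := K.PIn N c
  mono h hx := ⟨fun t ht => ⟨h (hx.T t ht).1, h (hx.T t ht).2.1, h (hx.T t ht).2.2⟩,
    fun M hM => ⟨(hx.C M hM).1, h (hx.C M hM).2⟩, fun v hv => h (hx.u v hv)⟩
  fin {N c} hx := by
    classical
    obtain ⟨A, h1, h2, h3⟩ := Sp.fin (K := K) (X := Finset (O × O × O)) (N := N) (x := c.T) (fun t ht => hx.T t ht)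
    obtain ⟨B, h4, h5, h6⟩ := Sp.fin (K := K) (X := Finset (Set O)) (N := N) (x := c.C) (fun M hM => hx.C M hM)
    obtain ⟨E, h7, h8, h9⟩ := Sp.fin (K := K) (X := Finset (O × ℕ × Bool)) (N := N) (x := c.u)
      (fun v hv => ⟨hx.u v hv, trivial, trivial⟩)
    refine ⟨A ∪ (B ∪ E), h1.union (h4.union h7), Set.union_subset h2 (Set.union_subset h5 h8), ?_, ?_, ?_⟩
    · intro t ht
      have h := h3 t ht
      exact ⟨Or.inl h.1, Or.inl h.2.1, Or.inl h.2.2⟩
    · intro M hM
      have h := h6 M hM
      exact ⟨h.1, Or.inr (Or.inl h.2)⟩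
    · intro v hv
      exact Or.inr (Or.inr (h9 v hv).1)
  ctb {A} hA := by
    refine Set.MapsTo.countable_of_injOn (f := fun c : Pre => (c.T, c.C, c.u))
      (t := {e : Finset (O × O × O) × Finset (Set O) × Finset (O × ℕ × Bool) | Sp.In K A e}) ?_ ?_ (Sp.ctb hA)
    · intro c hc
      exact ⟨fun t ht => hc.T t ht, fun M hM => hc.C M hM, fun v hv => ⟨hc.u v hv, trivial, trivial⟩⟩
    · intro c _ c' _ h
      simp only [Prod.mk.injEq] at h
      exact Pre.ext h.1 h.2.1 h.2.2

end Pool.Agent.Lib.MP_8f49b0_lc.MM
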